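import Pool.Agent.Helper36.RN.Goals

/-!
# Project RFn (MP_c98eff_gt), packet TEL: telescoping of polynomials.
-/

open MvPolynomial

namespace Pool.Agent.Helper90.RN

open Pool.Agent.Helper36.RN

theorem tel : G_TEL := by
  intro Z _ p
  classical
  induction p using MvPolynomial.induction_on with
  | C c =>
    refine ⟨fun _ => 0, ?_⟩
    intro R _ _ z z'
    simp
  | add p q hp hq =>
    obtain ⟨g, hg⟩ := hp
    obtain ⟨h, hh⟩ := hq
    refine ⟨fun a => g a + h a, ?_⟩
    intro R _ _ z z'
    rw [map_add, map_add, add_sub_add_comm, hg R z z', hh R z z', ← Finset.sum_add_distrib]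
    refine Finset.sum_congr rfl fun a _ => ?_
    rw [map_add, add_mul]
  | mul_X p i hp =>
    obtain ⟨g, hg⟩ := hp
    refine ⟨fun a => g a * X (Sum.inl i) + if a = i then rename Sum.inr p else 0, ?_⟩
    intro R _ _ z z'
    have h1 : aeval (Sum.elim z z') (rename Sum.inr p) = aeval z' p := by
      rw [aeval_rename, Sum.elim_comp_inr]
    have h2 : ∀ a, aeval (Sum.elim z z') (g a * X (Sum.inl i) + if a = i then rename Sum.inr p else 0)
        * (z a - z' a) = aeval (Sum.elim z z') (g a) * (z a - z' a) * z i
          + if a = i then aeval z' p * (z i - z' i) else 0 := by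
      intro a
      by_cases ha : a = i
      · subst ha
        rw [if_pos rfl, if_pos rfl, map_add, map_mul, aeval_X, h1, Sum.elim_inl]
        ring
      · rw [if_neg ha, if_neg ha, add_zero, add_zero, map_mul, aeval_X, Sum.elim_inl]
        ring
    have h3 : ∑ a, aeval (Sum.elim z z') (g a * X (Sum.inl i)
        + if a = i then rename Sum.inr p else 0) * (z a - z' a) =
        (aeval z p - aeval z' p) * z i + aeval z' p * (z i - z' i) := by
      rw [Finset.sum_congr rfl fun a _ => h2 a, Finset.sum_add_distrib, ← Finset.sum_mul, ← hg R z z',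
        Finset.sum_ite_eq', if_pos (Finset.mem_univ i)]
    rw [h3, map_mul, map_mul, aeval_X, aeval_X]
    ring

end Pool.Agent.Helper90.RN
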